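import Pool.Agent.Helper861_FPR.Excellent

/-!
# Every excellent regular ring of prime characteristic is F-pure regular

The full answer (yes) to Q1 of MP_9ff724_al. Let `R` be a regular ring of prime characteristic `p`
and let `c` be an element of `R` outside the minimal primes.

* `Bound.lean`: if every `R ⧸ P` (`P` prime) has a nonempty open set of regular points, then the
  order of `c` at the prime ideals of `R` is bounded: there is `N` with `c ∉ (m R_m) ^ N` for all
  primes `m`. This is Noetherian induction: at a prime `P` with parameters `x₁, …, x_h` of `R_P` in
  `P` one has `s c ≡ u x₁^k₁ ⋯ x_h^k_h` modulo `(x₁^(k₁+1), …, x_h^(k_h+1))` with `u ∉ P`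
  (`Lead.lean`), and at the primes `m ⊇ P` near `P` the `x_i` are part of a regular system of
  parameters of `R_m`, which forces the order of `c` at `m` to be at most `k₁ + … + k_h + h + 1`
  (`Prim.lean`, `Param.lean`, `Ext.lean`).
* `Frob.lean`, `Step.lean`: in a regular local ring `A` with maximal ideal `n`, an element
  `c ∉ n ^ (p ^ e)` gives a pure map `A → F^e_* A`, `1 ↦ F^e_* c`.
* `Glob.lean`: purity is local.
-/

set_option autoImplicit false

namespace Pool.Agent.Results.MP_9ff724_al.ExcellentRegular

open Pool.Agent.Helper861_FPR

universe u v

/-- Let `R` be a regular ring of prime characteristic `p`. If `R` is excellent, or, more generally,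
if for every prime `P` the regular locus of `R ⧸ P` contains a nonempty open set, then `R` is F-pure
regular. -/
theorem result (R : Type u) [CommRing R] [IsRegularRing R] (p : ℕ) [Fact p.Prime] [CharP R p]
    (h : IsExcellent R ∨ J0 R) : IsFPureRegular.{u, v} R p :=
  main R p h

end Pool.Agent.Results.MP_9ff724_al.ExcellentRegular
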